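import Pool.Agent.TH193.RS.Main2

/-!
# MP_7aad9f_nt: abc triples composed of the primes of a random set

For almost all sets `S = {p_1, …, p_k}` of primes, where `k` may grow with the size of the primes,
there is no abc triple two of whose members are composed of primes of `S` and whose third member is
`d * w ^ m` with `m ≤ M` prime and `d` composed of primes of `S` and of small primes (all but finitely
many such triples would violate the abc inequality).  The number of exceptional sets is bounded with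
a saving of `exp(κ log N / log log N)`.
-/

namespace Pool.Agent.Results.MP_7aad9f_nt.AlmostAllPrimeSets

open Pool.Agent.TH193.RS

/-- every prime factor of `n` lies in `S` -/
def Composed (S : Set ℕ) (n : ℕ) : Prop := ∀ ℓ : ℕ, ℓ.Prime → ℓ ∣ n → ℓ ∈ S

/-- There are coprime positive integers `a + b = c`, `c > 2`, two of which are composed of primes of
`S` and the third of which is `d * w ^ m` with a prime `m ≤ M` and `d` composed of primes of `S` and
of primes `≤ K`; if the third one is the sum `c`, then `m` or `d` is assumed to be odd. -/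
def HasTriple (K M : ℕ) (S : Set ℕ) : Prop :=
  ∃ a b c d w m : ℕ, 0 < a ∧ 0 < b ∧ a.Coprime b ∧ a + b = c ∧ 2 < c ∧ m.Prime ∧ m ≤ M ∧
    Composed (S ∪ {ℓ : ℕ | ℓ ≤ K}) d ∧
    ((Composed S a ∧ Composed S b ∧ c = d * w ^ m ∧ (Odd m ∨ Odd d)) ∨
     (Composed S b ∧ Composed S c ∧ a = d * w ^ m) ∨
     (Composed S a ∧ Composed S c ∧ b = d * w ^ m))

theorem toSupp {k : ℕ} {P : Fin k → ℕ} {n : ℕ} (h : Composed (Set.range P) n) : Supp P n := by
  intro ℓ hℓ hd
  obtain ⟨i, hi⟩ := h ℓ hℓ hd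
  exact ⟨i, hi.symm⟩

theorem toSM {k K : ℕ} {P : Fin k → ℕ} {n : ℕ}
    (h : Composed (Set.range P ∪ {ℓ : ℕ | ℓ ≤ K}) n) : SM K P n := by
  intro ℓ hℓ hd
  rcases h ℓ hℓ hd with ⟨i, hi⟩ | h1
  · exact Or.inr ⟨i, hi.symm⟩
  · exact Or.inl h1

theorem toSol {k K M : ℕ} (P : Fin k → ℕ) (h : HasTriple K M (Set.range P)) : Sol K M P := by
  obtain ⟨a, b, c, d, w, m, ha, hb, hab, habc, hc, hm, hmM, hd, h⟩ := h
  have hpos : ∀ n : ℕ, 0 < n → n = d * w ^ m → 0 < d ∧ 0 < w := by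
    intro n hn h1
    have hd0 : d ≠ 0 := by
      rintro rfl
      rw [zero_mul] at h1
      omega
    have hw0 : w ≠ 0 := by
      rintro rfl
      rw [zero_pow hm.ne_zero, mul_zero] at h1
      omega
    exact ⟨Nat.pos_of_ne_zero hd0, Nat.pos_of_ne_zero hw0⟩
  rcases h with ⟨h1, h2, h3, h4⟩ | ⟨h1, h2, h3⟩ | ⟨h1, h2, h3⟩
  · obtain ⟨hd0, hw0⟩ := hpos c (by omega) h3
    refine ⟨a, b, d, w, m, ha, hb, hab, toSupp h1, toSupp h2, ?_, hd0, toSM hd, hw0, hm, hmM,
      Or.inr ⟨h4, by rw [habc, h3]⟩⟩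
    rcases Nat.lt_or_ge 1 a with h5 | h5
    · nlinarith
    · have : 1 < b := by omega
      nlinarith
  · obtain ⟨hd0, hw0⟩ := hpos a ha h3
    refine ⟨c, b, d, w, m, by omega, hb, ?_, toSupp h2, toSupp h1, by nlinarith, hd0, toSM hd,
      hw0, hm, hmM, Or.inl (by rw [← h3, ← habc, add_comm])⟩
    rw [← habc]
    exact (Nat.coprime_add_self_left).2 hab
  · obtain ⟨hd0, hw0⟩ := hpos b hb h3
    refine ⟨c, a, d, w, m, by omega, ha, ?_, toSupp h2, toSupp h1, by nlinarith, hd0, toSM hd,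
      hw0, hm, hmM, Or.inl (by rw [← h3, ← habc])⟩
    rw [← habc, add_comm]
    exact (Nat.coprime_add_self_left).2 hab.symm

/-- For every `M` there is `κ > 0` such that for all large `N`, all `k, K ≤ (log N)^(1/10)` and all
`X_1, …, X_k ≥ N`, at most `exp(-κ log N / log log N) π(X_1) ⋯ π(X_k)` of the `k`-tuples of primes
`p_i ≤ X_i` are such that a triple as in `HasTriple K M {p_1, …, p_k}` exists. -/
theorem result (M : ℕ) : ∃ κ : ℝ, 0 < κ ∧ ∃ N₀ : ℕ, ∀ N : ℕ, N₀ ≤ N → ∀ k K : ℕ,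
    (k : ℝ) ≤ Real.log N ^ (1 / 10 : ℝ) → (K : ℝ) ≤ Real.log N ^ (1 / 10 : ℝ) →
    ∀ X : Fin k → ℕ, (∀ i, N ≤ X i) →
      ({P : Fin k → ℕ | (∀ i, (P i).Prime ∧ P i ≤ X i) ∧ HasTriple K M (Set.range P)}.ncard : ℝ) ≤
        Real.exp (-κ * (Real.log N / Real.log (Real.log N))) *
          ∏ i, (Nat.primeCounting (X i) : ℝ) := by
  classical
  obtain ⟨κ, hκ, N₀, h⟩ := main2 M
  refine ⟨κ, hκ, N₀, fun N hN k K hk hK X hX => le_trans ?_ (h N hN k K hk hK X hX)⟩
  rw [← Set.ncard_coe_finset]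
  refine Nat.cast_le.2 (Set.ncard_le_ncard ?_ (Finset.finite_toSet _))
  rintro P ⟨hP, hsol⟩
  rw [Finset.mem_coe, Finset.mem_filter, Fintype.mem_piFinset]
  refine ⟨fun i => ?_, toSol P hsol⟩
  rw [PR, Finset.mem_filter, Finset.mem_Icc]
  exact ⟨⟨(hP i).1.one_lt.le, (hP i).2⟩, (hP i).1⟩

end Pool.Agent.Results.MP_7aad9f_nt.AlmostAllPrimeSets
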