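import Pool.Agent.R479.DA.Frac

/-!
# The abc inequality at the approximations of a real number

For all real `ξ` outside a set of Hausdorff dimension at most `F (lam) / τ` the triples
`(p, q - p, q)` of the fractions `p / q` in `(0, 1)` with `|ξ - p / q| ≤ q ^ (-τ)` satisfy
`R (p (q - p) q) > B q ^ lam`, with finitely many exceptions for each `B`. For `lam = 1` and `τ = 2`
(for instance for the convergents of `ξ`) the bound is `15 / 56`, and for almost all `ξ` the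
inequality `R (p (q - p) q) > q ^ lam` holds for every `lam < 3`.
-/

set_option autoImplicit false

namespace Pool.Agent.Results.MP_7aad9f_nt.ApproximatingFractions

open MeasureTheory
open scoped ENNReal NNReal

/-- the radical of `m`: the product of the distinct primes dividing `m` -/
def R (m : ℕ) : ℕ := ∏ p ∈ m.primeFactors, p

/-- the exponent, a continuous increasing piecewise linear function with `F 1 = 15 / 28` -/
noncomputable def F (lam : ℝ) : ℝ :=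
  if lam ≤ 2 / 3 then 4 * lam / 7
  else if lam ≤ 1 then (13 * lam + 2) / 28
  else if lam ≤ 3 / 2 then 5 * (10 * lam - 1) / 84
  else if lam ≤ 16 / 9 then (9 * lam - 1) / 15
  else if lam ≤ 2 then 1
  else lam - 1

/-- the exceptions among the approximations of `ξ` of exponent `τ`: the pairs `(p, q)` of coprime
integers with `0 < p < q`, `|ξ - p / q| ≤ q ^ (-τ)` and `R (p (q - p) q) ≤ B q ^ lam` -/
def Exceptions (τ lam B ξ : ℝ) : Set (ℕ × ℕ) :=
  {t | 0 < t.1 ∧ t.1 < t.2 ∧ Nat.Coprime t.1 t.2 ∧ |ξ - (t.1 : ℝ) / t.2| ≤ (t.2 : ℝ) ^ (-τ) ∧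
    (R (t.1 * (t.2 - t.1) * t.2) : ℝ) ≤ B * (t.2 : ℝ) ^ lam}

theorem F_eq (lam : ℝ) : F lam = Pool.Agent.W221.ABC7.Fx lam := rfl

theorem exc_eq (τ lam B ξ : ℝ) : Exceptions τ lam B ξ =
    {t | t ∈ Pool.Agent.R479.DA.Sm B lam ∧ |ξ - (t.1 : ℝ) / t.2| ≤ (t.2 : ℝ) ^ (-τ)} := by
  ext ⟨p, q⟩
  constructor
  · rintro ⟨h1, h2, h3, h4, h5⟩
    simp only at h1 h2 h3 h4 h5
    refine ⟨⟨h1, h2, h3, ?_⟩, h4⟩
    simp only
    rw [show p * q * (q - p) = p * (q - p) * q by ring]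
    exact h5
  · rintro ⟨⟨h1, h2, h3, h5⟩, h4⟩
    simp only at h1 h2 h3 h4 h5
    refine ⟨h1, h2, h3, h4, ?_⟩
    simp only
    rw [show p * (q - p) * q = p * q * (q - p) by ring]
    exact h5

theorem part_one (lam τ : ℝ) (hlam : 0 < lam) (hτ : 0 < τ) :
    ∃ E : Set ℝ, dimH E ≤ ENNReal.ofReal (F lam / τ) ∧
      ∀ ξ : ℝ, ξ ∉ E → ∀ B : ℝ, (Exceptions τ lam B ξ).Finite := by
  refine ⟨⋃ B : ℕ, {ξ | (Exceptions τ lam B ξ).Infinite}, ?_, fun ξ hξ B => ?_⟩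
  · rw [dimH_iUnion]
    refine iSup_le fun B => ?_
    have h := Pool.Agent.R479.DA.dim_sm (B : ℝ) lam τ hlam hτ
    refine le_trans (dimH_mono fun ξ hξ => ?_) h
    simp only [Set.mem_ofPred_eq] at hξ ⊢
    rw [exc_eq] at hξ
    exact hξ
  · obtain ⟨n, hn⟩ := exists_nat_ge B
    have h1 : (Exceptions τ lam n ξ).Finite := by
      by_contra hcon
      exact hξ (Set.mem_iUnion.2 ⟨n, hcon⟩)
    refine h1.subset ?_
    rintro t ⟨h1, h2, h3, h4, h5⟩
    refine ⟨h1, h2, h3, h4, h5.trans ?_⟩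
    gcongr

theorem F_lt {τ r : ℝ} (hτ : 1 < τ) (hr : r < 1 + τ) : F r < τ := by
  unfold F
  split_ifs <;> linarith

theorem part_two (τ : ℝ) (hτ : 1 < τ) :
    ∀ᵐ ξ : ℝ, ∀ lam : ℝ, lam < 1 + τ → ∀ B : ℝ, (Exceptions τ lam B ξ).Finite := by
  -- rational `lam`
  have h0 : ∀ r : ℚ, ∀ᵐ ξ : ℝ, 0 < (r : ℝ) → (r : ℝ) < 1 + τ →
      ∀ B : ℝ, (Exceptions τ r B ξ).Finite := by
    intro r
    by_cases hr : 0 < (r : ℝ) ∧ (r : ℝ) < 1 + τ
    · obtain ⟨E, hE, hgood⟩ := part_one (r : ℝ) τ hr.1 (by linarith)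
      have h1 : (volume : Measure ℝ) E = 0 := by
        have h2 : (volume : Measure ℝ) ≪ μH[((1 : ℝ≥0) : ℝ)] := by
          rw [NNReal.coe_one, hausdorffMeasure_real]
        refine measure_zero_of_dimH_lt h2 (hE.trans_lt ?_)
        rw [ENNReal.coe_one, ← ENNReal.ofReal_one, ENNReal.ofReal_lt_ofReal_iff one_pos]
        rw [div_lt_one (by linarith)]
        exact F_lt hτ hr.2
      have h3 : ∀ᵐ ξ : ℝ, ξ ∉ E := measure_eq_zero_iff_ae_notMem.mp h1
      filter_upwards [h3] with ξ hξ _ _ B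
      exact hgood ξ hξ B
    · exact Filter.Eventually.of_forall fun ξ h1 h2 => absurd ⟨h1, h2⟩ hr
  have h1 := ae_all_iff.mpr h0
  filter_upwards [h1] with ξ hξ lam hlam B
  obtain ⟨r, hr1, hr2⟩ := exists_rat_btwn (show max lam 0 < 1 + τ by
    rw [max_lt_iff]
    exact ⟨hlam, by linarith⟩)
  have hr0 : (0 : ℝ) < r := (le_max_right _ _).trans_lt hr1
  have hr3 : lam ≤ (r : ℝ) := (le_max_left _ _).trans hr1.le
  refine (hξ r hr0 hr2 |B|).subset ?_
  rintro t ⟨h1, h2, h3, h4, h5⟩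
  refine ⟨h1, h2, h3, h4, h5.trans ?_⟩
  have h6 : (1 : ℝ) ≤ (t.2 : ℝ) := by
    have : 1 ≤ t.2 := by omega
    exact_mod_cast this
  calc B * (t.2 : ℝ) ^ lam ≤ |B| * (t.2 : ℝ) ^ lam :=
        mul_le_mul_of_nonneg_right (le_abs_self B) (by positivity)
    _ ≤ |B| * (t.2 : ℝ) ^ (r : ℝ) :=
        mul_le_mul_of_nonneg_left (Real.rpow_le_rpow_of_exponent_le h6 hr3) (abs_nonneg B)

/-- **Theorem.** (1) For all `lam > 0` and `τ > 0` there is a set `E` of Hausdorff dimension at most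
`F (lam) / τ` such that for every real `ξ` outside `E` and every `B` only finitely many fractions
`p / q` in `(0, 1)` with `|ξ - p / q| ≤ q ^ (-τ)` have `R (p (q - p) q) ≤ B q ^ lam`. (2) For every
`τ > 1` and almost all real `ξ` there are, for all `lam < 1 + τ` and `B`, only finitely many
fractions `p / q` in `(0, 1)` with `|ξ - p / q| ≤ q ^ (-τ)` and `R (p (q - p) q) ≤ B q ^ lam`. -/
theorem result :
    (∀ lam τ : ℝ, 0 < lam → 0 < τ → ∃ E : Set ℝ, dimH E ≤ ENNReal.ofReal (F lam / τ) ∧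
      ∀ ξ : ℝ, ξ ∉ E → ∀ B : ℝ, (Exceptions τ lam B ξ).Finite) ∧
    (∀ τ : ℝ, 1 < τ → ∀ᵐ ξ : ℝ, ∀ lam : ℝ, lam < 1 + τ → ∀ B : ℝ,
      (Exceptions τ lam B ξ).Finite) :=
  ⟨part_one, part_two⟩

end Pool.Agent.Results.MP_7aad9f_nt.ApproximatingFractions
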