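import Pool.Agent.R479.DA.Exact

/-!
# The Jarník-Besicovitch theorem for approximations of small radical

For `1 < lam ≤ 3`, `B > 0` and `τ > 0` let `W` be the set of the real numbers `ξ` for which
infinitely many fractions `p / q` in `(0, 1)`, in lowest terms, satisfy `|ξ - p / q| ≤ q ^ (-τ)` and
`R (p (q - p) q) ≤ B q ^ lam`. For `τ < lam - 1` it contains almost every number of `(0, 1)`. Its
Hausdorff dimension is at least `min (1, (lam - 1) / τ)`, and for `2 ≤ lam ≤ 3` it is equal to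
`min (1, (lam - 1) / τ)`. For `lam = 3`, `B = 1` the condition on the radical is void, and this is the
theorem of Jarník and Besicovitch.
-/

set_option autoImplicit false

namespace Pool.Agent.Results.MP_7aad9f_nt.JarnikBesicovitch

open MeasureTheory

/-- the radical of `m`: the product of the distinct primes dividing `m` -/
def R (m : ℕ) : ℕ := ∏ p ∈ m.primeFactors, p

/-- the real numbers `ξ` with infinitely many approximations `p / q = t.1 / t.2` in `(0, 1)`, in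
lowest terms, such that `|ξ - p / q| ≤ q ^ (-τ)` and `R (p (q - p) q) ≤ B q ^ lam` -/
def W (lam B τ : ℝ) : Set ℝ :=
  {ξ : ℝ | {t : ℕ × ℕ | 0 < t.1 ∧ t.1 < t.2 ∧ Nat.Coprime t.1 t.2 ∧
    |ξ - (t.1 : ℝ) / t.2| ≤ (t.2 : ℝ) ^ (-τ) ∧
    (R (t.1 * (t.2 - t.1) * t.2) : ℝ) ≤ B * (t.2 : ℝ) ^ lam}.Infinite}

theorem W_eq (lam B τ : ℝ) : W lam B τ = Pool.Agent.R479.DA.WW B lam τ := by
  unfold W Pool.Agent.R479.DA.WW
  ext ξ
  simp only [Set.mem_ofPred_eq]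
  have h : {t : ℕ × ℕ | 0 < t.1 ∧ t.1 < t.2 ∧ Nat.Coprime t.1 t.2 ∧
      |ξ - (t.1 : ℝ) / t.2| ≤ (t.2 : ℝ) ^ (-τ) ∧
      (R (t.1 * (t.2 - t.1) * t.2) : ℝ) ≤ B * (t.2 : ℝ) ^ lam} =
      {t | t ∈ Pool.Agent.R479.DA.Sm B lam ∧ |ξ - (t.1 : ℝ) / t.2| ≤ (t.2 : ℝ) ^ (-τ)} := by
    ext ⟨p, q⟩
    constructor
    · rintro ⟨h1, h2, h3, h4, h5⟩
      simp only at h1 h2 h3 h4 h5
      refine ⟨⟨h1, h2, h3, ?_⟩, h4⟩
      simp only
      rw [show p * q * (q - p) = p * (q - p) * q by ring]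
      exact h5
    · rintro ⟨⟨h1, h2, h3, h5⟩, h4⟩
      simp only at h1 h2 h3 h4 h5
      refine ⟨h1, h2, h3, h4, ?_⟩
      simp only
      rw [show p * (q - p) * q = p * q * (q - p) by ring]
      exact h5
  rw [h]

/-- **Theorem.** Let `1 < lam ≤ 3`, `B > 0` and `τ > 0`. If `τ < lam - 1`, then `W` contains almost
every number of `(0, 1)`. The Hausdorff dimension of `W` is at least `min (1, (lam - 1) / τ)`. If
`lam ≥ 2`, it is equal to `min (1, (lam - 1) / τ)`. -/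
theorem result (lam B τ : ℝ) (h1 : 1 < lam) (h3 : lam ≤ 3) (hB : 0 < B) (hτ : 0 < τ) :
    (τ < lam - 1 → ∀ᵐ ξ : ℝ, ξ ∈ Set.Ioo (0 : ℝ) 1 → ξ ∈ W lam B τ) ∧
    ENNReal.ofReal (min 1 ((lam - 1) / τ)) ≤ dimH (W lam B τ) ∧
    (2 ≤ lam → dimH (W lam B τ) = ENNReal.ofReal (min 1 ((lam - 1) / τ))) := by
  rw [W_eq]
  exact ⟨fun h => Pool.Agent.R479.DA.ae_WW h1 h3 hB h, Pool.Agent.R479.DA.dim_ge h1 h3 hB hτ,
    fun h => Pool.Agent.R479.DA.dim_exact h h3 hB hτ⟩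

end Pool.Agent.Results.MP_7aad9f_nt.JarnikBesicovitch
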