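import Pool.Agent.R948.Sp5

/-!
# The abc conjecture for the solutions of one spherical Fermat equation

For every signature `(p, q, r)` with `1/p + 1/q + 1/r > 1` there is one equation
`± α x ^ p ± β y ^ q ± γ z ^ r = 0` such that the abc conjecture for its coprime solutions implies
the whole abc conjecture.
-/

set_option autoImplicit false

namespace Pool.Agent.Results.MP_7aad9f_nt.SphericalEquations

open Finset

/-- the radical -/
def radical (n : ℕ) : ℕ := ∏ p ∈ n.primeFactors, p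

/-- the abc conjecture for the triples in `S` -/
def AbcFor (S : ℕ → ℕ → ℕ → Prop) : Prop := ∀ ε : ℝ, 0 < ε → ∃ K : ℝ, 0 < K ∧
  ∀ a b c : ℕ, 0 < a → 0 < b → a + b = c → Nat.Coprime a b → S a b c →
    (c : ℝ) ≤ K * (radical (a * b * c) : ℝ) ^ (1 + ε)

/-- the abc conjecture -/
def Abc : Prop := ∀ ε : ℝ, 0 < ε → ∃ K : ℝ, 0 < K ∧ ∀ a b c : ℕ, 0 < a → 0 < b → a + b = c →
  Nat.Coprime a b → (c : ℝ) ≤ K * (radical (a * b * c) : ℝ) ^ (1 + ε)

/-- the members of the triple `(a, b, c)` are, in some order, `α x ^ p`, `β y ^ q`, `γ z ^ r` -/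
def Members (α p β q γ r : ℕ) (a b c : ℕ) : Prop :=
  ∃ x y z : ℕ, ({a, b, c} : Multiset ℕ) = {α * x ^ p, β * y ^ q, γ * z ^ r}

/-- **Theorem.** Let `p, q, r ≥ 1` be integers with `1/p + 1/q + 1/r > 1`. There are `α, β, γ ≥ 1`
such that the abc conjecture is equivalent to the abc conjecture for the triples whose members are,
in some order, `α x ^ p`, `β y ^ q` and `γ z ^ r`. Explicitly, the abc conjecture is equivalent to
its restriction to each of the following sets of triples: two members are a `q`-th and an `r`-th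
power; two members are squares and the third is an `n`-th power; a square and two cubes; a square,
a cube and `108` times a fourth power; a square, a cube and `1728` times a fifth power. -/
theorem result :
    (∀ p q r : ℕ, 0 < p → 0 < q → 0 < r → 1 < (1 : ℚ) / p + 1 / q + 1 / r →
      ∃ α β γ : ℕ, 0 < α ∧ 0 < β ∧ 0 < γ ∧ (Abc ↔ AbcFor (Members α p β q γ r))) ∧
    (∀ q r : ℕ, 0 < q → 0 < r → (Abc ↔ AbcFor (Members 1 q 1 r 1 1))) ∧
    (∀ n : ℕ, 0 < n → (Abc ↔ AbcFor (Members 1 2 1 2 1 n))) ∧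
    (Abc ↔ AbcFor (Members 1 2 1 3 1 3)) ∧
    (Abc ↔ AbcFor (Members 1 2 1 3 108 4)) ∧
    (Abc ↔ AbcFor (Members 1 2 1 3 1728 5)) := by
  refine ⟨fun p q r hp hq hr h => Pool.Agent.R948.Sp.good_all hp hq hr h, fun q r hq hr => ?_,
    fun n hn => ?_, ?_, ?_, Pool.Agent.R948.Sp.case35⟩
  · exact Pool.Agent.R948.Sp.sw23 (Pool.Agent.R948.Sp.sw12 (Pool.Agent.R948.Sp.case1 q r hq hr))
  · exact Pool.Agent.R948.Sp.sw23 (Pool.Agent.R948.Sp.case22 n hn)
  · exact Pool.Agent.R948.Sp.sw12 (Pool.Agent.R948.Sp.sw23 Pool.Agent.R948.Sp.case33)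
  · exact Pool.Agent.R948.Sp.sw23 Pool.Agent.R948.Sp.case34

end Pool.Agent.Results.MP_7aad9f_nt.SphericalEquations
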